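import Mathlib

namespace MP38b55a.UT

open Finset

section
variable {n : ℕ} [NeZero n]

/-- number of ascents of `h` at cyclic distance `< k` -/
noncomputable def Asc (h : ZMod n → ℕ) (k : ℕ) : ℝ :=
  ∑ d ∈ range k, ∑ x : ZMod n, if h x < h (x + d) then (1 : ℝ) else 0

/-- number of occurrences of the value `u` in the window of length `k` starting at `x` -/
noncomputable def cnt (h : ZMod n → ℕ) (k u : ℕ) (x : ZMod n) : ℝ :=
  ∑ d ∈ range k, if h (x + d) = u then (1 : ℝ) else 0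

noncomputable def En (p : ℕ) (h : ZMod n → ℕ) (k : ℕ) : ℝ :=
  ∑ x : ZMod n, ∑ u ∈ range p, cnt h k u x ^ 2

noncomputable def Fn (p : ℕ) (h : ZMod n → ℕ) (k : ℕ) : ℝ :=
  ∑ x : ZMod n, ∑ u ∈ range p, (cnt h k u (x + k) - cnt h k u x) ^ 2

noncomputable def Ln (p : ℕ) (h : ZMod n → ℕ) (k : ℕ) : ℝ :=
  ∑ x : ZMod n, ∑ u ∈ range p, |cnt h k u (x + k) - cnt h k u x|

noncomputable def eqd (h : ZMod n → ℕ) (d : ℕ) : ℝ :=
  ∑ x : ZMod n, if h (x + d) = h x then (1 : ℝ) else 0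

lemma shift (f : ZMod n → ℝ) (a : ZMod n) : ∑ x : ZMod n, f (x + a) = ∑ x : ZMod n, f x :=
  Equiv.sum_comp (Equiv.addRight a) f

omit [NeZero n] in
lemma cnt_nonneg (h : ZMod n → ℕ) (k u : ℕ) (x : ZMod n) : 0 ≤ cnt h k u x :=
  sum_nonneg fun _ _ => by split_ifs <;> norm_num

omit [NeZero n] in
lemma cnt_two (h : ZMod n → ℕ) (k u : ℕ) (x : ZMod n) :
    cnt h (2 * k) u x = cnt h k u x + cnt h k u (x + k) := by
  unfold cnt
  rw [two_mul, sum_range_add]
  congr 1
  refine sum_congr rfl fun d _ => ?_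
  rw [Nat.cast_add, add_assoc]

omit [NeZero n] in
lemma sum_cnt_lt (h : ZMod n → ℕ) (k a : ℕ) (x : ZMod n) :
    ∑ u ∈ range a, cnt h k u x = ∑ d ∈ range k, if h (x + d) < a then (1 : ℝ) else 0 := by
  unfold cnt
  rw [sum_comm]
  refine sum_congr rfl fun d _ => ?_
  rw [sum_ite_eq]
  simp

omit [NeZero n] in
lemma sum_cnt {p : ℕ} {h : ZMod n → ℕ} (hh : ∀ x, h x < p) (k : ℕ) (x : ZMod n) :
    ∑ u ∈ range p, cnt h k u x = k := by
  rw [sum_cnt_lt]
  simp [hh]

lemma En_two (p : ℕ) (h : ZMod n → ℕ) (k : ℕ) :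
    En p h (2 * k) = 4 * En p h k - Fn p h k := by
  have h1 : ∑ x : ZMod n, ∑ u ∈ range p, cnt h k u (x + k) ^ 2 = En p h k :=
    shift (fun x => ∑ u ∈ range p, cnt h k u x ^ 2) k
  have h2 : En p h (2 * k) + Fn p h k
      = 2 * En p h k + 2 * ∑ x : ZMod n, ∑ u ∈ range p, cnt h k u (x + k) ^ 2 := by
    unfold En Fn
    rw [mul_sum, mul_sum, ← sum_add_distrib, ← sum_add_distrib]
    refine sum_congr rfl fun x _ => ?_
    rw [mul_sum, mul_sum, ← sum_add_distrib, ← sum_add_distrib]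
    refine sum_congr rfl fun u _ => ?_
    rw [cnt_two]
    ring
  rw [h1] at h2
  linarith

lemma En_low {p : ℕ} {h : ZMod n → ℕ} (hh : ∀ x, h x < p) (k : ℕ) :
    (n : ℝ) * k ^ 2 ≤ p * En p h k := by
  unfold En
  rw [mul_sum]
  have : ∀ x ∈ (univ : Finset (ZMod n)),
      (k : ℝ) ^ 2 ≤ p * ∑ u ∈ range p, cnt h k u x ^ 2 := by
    intro x _
    have := sq_sum_le_card_mul_sum_sq (s := range p) (f := fun u => cnt h k u x)
    rwa [sum_cnt hh, card_range] at this
  have h2 := sum_le_sum this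
  simpa [ZMod.card] using h2

lemma En_nonneg (p : ℕ) (h : ZMod n → ℕ) (k : ℕ) : 0 ≤ En p h k :=
  sum_nonneg fun _ _ => sum_nonneg fun _ _ => sq_nonneg _

lemma En_up {p : ℕ} {h : ZMod n → ℕ} (hh : ∀ x, h x < p) (k : ℕ) :
    En p h k ≤ (n : ℝ) * k ^ 2 := by
  unfold En
  have : ∀ x ∈ (univ : Finset (ZMod n)),
      ∑ u ∈ range p, cnt h k u x ^ 2 ≤ (k : ℝ) ^ 2 := by
    intro x _
    have := sum_sq_le_sq_sum_of_nonneg (s := range p) (f := fun u => cnt h k u x)
      (fun u _ => cnt_nonneg h k u x)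
    rwa [sum_cnt hh] at this
  have h2 := sum_le_sum this
  simpa [ZMod.card] using h2

lemma eqd_nonneg (h : ZMod n → ℕ) (d : ℕ) : 0 ≤ eqd h d :=
  sum_nonneg fun _ _ => by split_ifs <;> norm_num

lemma En_eq {p : ℕ} {h : ZMod n → ℕ} (hh : ∀ x, h x < p) (k : ℕ) :
    En p h k = ∑ d ∈ range k, ∑ e ∈ range k,
      ∑ x : ZMod n, if h (x + d) = h (x + e) then (1 : ℝ) else 0 := by
  unfold En
  have : ∀ x : ZMod n, ∑ u ∈ range p, cnt h k u x ^ 2
      = ∑ d ∈ range k, ∑ e ∈ range k, if h (x + d) = h (x + e) then (1 : ℝ) else 0 := by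
    intro x
    unfold cnt
    simp_rw [sq, sum_mul_sum]
    rw [sum_comm]
    refine sum_congr rfl fun d _ => ?_
    rw [sum_comm]
    refine sum_congr rfl fun e _ => ?_
    rw [sum_eq_single (h (x + d))]
    · simp [eq_comm]
    · intro u _ hu
      simp [Ne.symm hu]
    · intro hn
      exact absurd (mem_range.2 (hh _)) hn
  simp_rw [this]
  rw [sum_comm]
  refine sum_congr rfl fun d _ => ?_
  rw [sum_comm]

lemma pair_eq (h : ZMod n → ℕ) {d e : ℕ} (hde : e ≤ d) :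
    (∑ x : ZMod n, if h (x + d) = h (x + e) then (1 : ℝ) else 0) = eqd h (d - e) := by
  unfold eqd
  rw [← shift (fun x => if h (x + ((d - e : ℕ) : ZMod n)) = h x then (1 : ℝ) else 0) e]
  refine sum_congr rfl fun x _ => ?_
  have : x + (e : ZMod n) + ((d - e : ℕ) : ZMod n) = x + d := by
    rw [Nat.cast_sub hde]; ring
  simp only [this]

lemma half_le (h : ZMod n → ℕ) {k d : ℕ} (hd : d < k) :
    ∑ e ∈ range k, (if e ≤ d then eqd h (d - e) else 0) ≤ ∑ e ∈ range k, eqd h e := by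
  rw [← sum_filter]
  have h1 : (range k).filter (fun e => e ≤ d) = range (d + 1) := by
    ext e; simp only [mem_filter, mem_range]; omega
  rw [h1]
  have h2 := sum_range_reflect (eqd h) (d + 1)
  simp only [Nat.add_sub_cancel] at h2
  rw [h2]
  exact sum_le_sum_of_subset_of_nonneg (range_subset_range.2 hd) fun e _ _ => eqd_nonneg h e

lemma En_le_Q {p : ℕ} {h : ZMod n → ℕ} (hh : ∀ x, h x < p) (k : ℕ) :
    En p h k ≤ 2 * k * ∑ e ∈ range k, eqd h e := by
  rw [En_eq hh]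
  have h1 : ∀ d ∈ range k, ∀ e ∈ range k,
      (∑ x : ZMod n, if h (x + d) = h (x + e) then (1 : ℝ) else 0)
        ≤ (if e ≤ d then eqd h (d - e) else 0) + (if d ≤ e then eqd h (e - d) else 0) := by
    intro d _ e _
    by_cases hde : e ≤ d
    · rw [pair_eq h hde, if_pos hde]
      have : 0 ≤ (if d ≤ e then eqd h (e - d) else 0) := by
        split_ifs
        · exact eqd_nonneg _ _
        · exact le_rfl
      linarith
    · have hed : d ≤ e := by omega
      rw [if_neg hde, if_pos hed, zero_add, ← pair_eq h hed]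
      simp only [eq_comm]
      exact le_rfl
  have h2 := sum_le_sum fun d hd => sum_le_sum (h1 d hd)
  refine h2.trans ?_
  simp_rw [sum_add_distrib]
  rw [sum_comm (s := range k) (t := range k)
    (f := fun d e => if d ≤ e then eqd h (e - d) else 0)]
  have h3 := sum_le_sum fun d (hd : d ∈ range k) => half_le h (mem_range.1 hd)
  rw [sum_const, card_range, nsmul_eq_mul] at h3
  linarith

lemma Asc_succ_le (h : ZMod n → ℕ) (k : ℕ) : Asc h (k + 1) ≤ Asc h k + n := by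
  unfold Asc
  rw [sum_range_succ]
  have : (∑ x : ZMod n, if h x < h (x + (k : ℕ)) then (1 : ℝ) else 0) ≤ ∑ _x : ZMod n, (1 : ℝ) :=
    sum_le_sum fun _ _ => by split_ifs <;> norm_num
  simp only [sum_const, card_univ, ZMod.card, nsmul_eq_mul, mul_one] at this
  linarith

lemma Asc_back (h : ZMod n → ℕ) (k : ℕ) :
    Asc h (k + 1) = ∑ x : ZMod n, ∑ d ∈ range k,
      if h (x + d) < h (x + k) then (1 : ℝ) else 0 := by
  unfold Asc
  rw [sum_range_succ', sum_comm (s := univ)]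
  simp only [Nat.cast_zero, add_zero, lt_self_iff_false, if_false, sum_const_zero]
  rw [← sum_range_reflect]
  refine sum_congr rfl fun d hd => ?_
  have hd' := mem_range.1 hd
  rw [← shift (fun x => if h x < h (x + ((k - 1 - d + 1 : ℕ) : ZMod n)) then (1 : ℝ) else 0) d]
  refine sum_congr rfl fun x _ => ?_
  have e1 : k - 1 - d + 1 = k - d := by omega
  have : x + (d : ZMod n) + ((k - 1 - d + 1 : ℕ) : ZMod n) = x + k := by
    rw [e1, Nat.cast_sub hd'.le]; ring
  simp only [this]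

lemma Asc_main {p : ℕ} {h : ZMod n → ℕ} (hh : ∀ x, h x < p) (k : ℕ) :
    Asc h k + Asc h (k + 1) + ∑ e ∈ range k, eqd h e ≤ n * k + Ln p h k := by
  have e1 : Asc h k = ∑ x : ZMod n, ∑ d ∈ range k,
      if h (x + k) < h (x + k + d) then (1 : ℝ) else 0 := by
    unfold Asc
    rw [sum_comm]
    exact (shift (fun x => ∑ d ∈ range k, if h x < h (x + d) then (1 : ℝ) else 0) k).symm
  have e2 : ∑ e ∈ range k, eqd h e = ∑ x : ZMod n, ∑ d ∈ range k,
      if h (x + k + d) = h (x + k) then (1 : ℝ) else 0 := by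
    unfold eqd
    rw [sum_comm]
    exact (shift (fun x : ZMod n => ∑ d ∈ range k, if h (x + d) = h x then (1 : ℝ) else 0) k).symm
  have e3 : (n : ℝ) * k = ∑ _x : ZMod n, (k : ℝ) := by simp [ZMod.card]
  rw [e1, e2, Asc_back, e3]
  unfold Ln
  rw [← sum_add_distrib, ← sum_add_distrib, ← sum_add_distrib]
  refine sum_le_sum fun x _ => ?_
  have f1 := sum_cnt_lt h k (h (x + k)) x
  have f2 := sum_cnt_lt h k (h (x + k)) (x + k)
  have f3 : ∑ u ∈ range (h (x + k)), cnt h k u x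
      ≤ ∑ u ∈ range (h (x + k)), cnt h k u (x + k)
        + ∑ u ∈ range (h (x + k)), |cnt h k u (x + k) - cnt h k u x| := by
    rw [← sum_add_distrib]
    refine sum_le_sum fun u _ => ?_
    have := neg_abs_le (cnt h k u (x + k) - cnt h k u x)
    linarith
  have f4 : ∑ u ∈ range (h (x + k)), |cnt h k u (x + k) - cnt h k u x|
      ≤ ∑ u ∈ range p, |cnt h k u (x + k) - cnt h k u x| :=
    sum_le_sum_of_subset_of_nonneg (range_subset_range.2 (hh _).le) fun _ _ _ => abs_nonneg _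
  have f5 : (∑ d ∈ range k, if h (x + k) < h (x + k + d) then (1 : ℝ) else 0)
      + (∑ d ∈ range k, if h (x + k + d) < h (x + k) then (1 : ℝ) else 0)
      + (∑ d ∈ range k, if h (x + k + d) = h (x + k) then (1 : ℝ) else 0) = k := by
    rw [← sum_add_distrib, ← sum_add_distrib]
    have : ∀ d ∈ range k, ((if h (x + k) < h (x + k + d) then (1 : ℝ) else 0)
      + (if h (x + k + d) < h (x + k) then (1 : ℝ) else 0)
      + (if h (x + k + d) = h (x + k) then (1 : ℝ) else 0)) = 1 := by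
      intro d _
      rcases lt_trichotomy (h (x + k)) (h (x + k + d)) with c | c | c
      · simp [c, c.not_gt, c.ne']
      · simp [c]
      · simp [c, c.not_gt, c.ne]
    rw [sum_congr rfl this]
    simp
  linarith

lemma Ln_sq (p : ℕ) (h : ZMod n → ℕ) (k : ℕ) : Ln p h k ^ 2 ≤ n * p * Fn p h k := by
  unfold Ln Fn
  rw [← sum_product', ← sum_product']
  have := sq_sum_le_card_mul_sum_sq (s := (univ : Finset (ZMod n)) ×ˢ range p)
    (f := fun z => |cnt h k z.2 (z.1 + k) - cnt h k z.2 z.1|)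
  simpa [ZMod.card, sq_abs] using this

lemma step {p : ℕ} (hp : 0 < p) {h h' : ZMod n → ℕ} (hh : ∀ x, h x < p) (hh' : ∀ x, h' x < p)
    {k : ℕ} (η : ℝ) (hk : 12 * p ≤ k) (hn : 12 * p * k ≤ n) (hη : 12 * p * η ≤ n * k)
    (H : (k : ℝ) * n - k ^ 2 - η ≤ Asc h (k + 1) + Asc h' (k + 1)) :
    (n : ℝ) * k ^ 2 ≤ 8 * p ^ 3 * (Fn p h k + Fn p h' k) := by
  have hn0 : (0 : ℝ) < n := by exact_mod_cast Nat.pos_of_ne_zero (NeZero.ne n)
  have hp0 : (0 : ℝ) < p := by exact_mod_cast hp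
  have hk0 : (0 : ℝ) < k := by
    have : 0 < k := by omega
    exact_mod_cast this
  have hk' : (12 : ℝ) * p ≤ k := by exact_mod_cast hk
  have hn' : (12 : ℝ) * p * k ≤ n := by exact_mod_cast hn
  have q : ∀ {g : ZMod n → ℕ}, (∀ x, g x < p) →
      (n : ℝ) * k ≤ 2 * p * ∑ e ∈ range k, eqd g e := by
    intro g hg
    have a1 := En_low hg k
    have a2 := En_le_Q hg k
    have a3 : (k : ℝ) * (n * k) ≤ k * (2 * p * ∑ e ∈ range k, eqd g e) := by
      have := mul_le_mul_of_nonneg_left a2 hp0.le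
      nlinarith
    exact le_of_mul_le_mul_left a3 hk0
  have q1 := q hh
  have q2 := q hh'
  have m1 := Asc_main hh k
  have m2 := Asc_main hh' k
  have s1 := Asc_succ_le h k
  have s2 := Asc_succ_le h' k
  have l1 := Ln_sq p h k
  have l2 := Ln_sq p h' k
  set Q := ∑ e ∈ range k, eqd h e
  set Q' := ∑ e ∈ range k, eqd h' e
  set L := Ln p h k
  set L' := Ln p h' k
  have b1 : Q + Q' - 2 * k ^ 2 - 2 * η - 2 * n ≤ L + L' := by nlinarith
  have b2 : (n : ℝ) * k ≤ 2 * p * (L + L') := by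
    have c1 := mul_le_mul_of_nonneg_left b1 hp0.le
    have c2 : (12 : ℝ) * p * n ≤ k * n := mul_le_mul_of_nonneg_right hk' hn0.le
    have c3 : (12 : ℝ) * p * k * k ≤ n * k := mul_le_mul_of_nonneg_right hn' hk0.le
    nlinarith
  have b3 : ((n : ℝ) * k) ^ 2 ≤ (2 * p * (L + L')) ^ 2 :=
    pow_le_pow_left₀ (by positivity) b2 2
  have b4 : (L + L') ^ 2 ≤ 2 * (n * p * (Fn p h k + Fn p h' k)) := by
    nlinarith [sq_nonneg (L - L')]
  have b5 : (n : ℝ) * (n * k ^ 2) ≤ n * (8 * p ^ 3 * (Fn p h k + Fn p h' k)) := by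
    have := mul_le_mul_of_nonneg_left b4 (show (0 : ℝ) ≤ 4 * p ^ 2 by positivity)
    nlinarith
  exact le_of_mul_le_mul_left b5 hn0

end

theorem comb {p : ℕ} (hp : 0 < p) : ∃ N : ℕ, 0 < N ∧ ∀ (n : ℕ) [NeZero n], N ≤ n →
    ∀ h h' : ZMod n → ℕ, (∀ x, h x < p) → (∀ x, h' x < p) →
    ¬ ∀ k : ℕ, k ≤ n → (k : ℝ) * n - k ^ 2 - n ^ 2 / N ≤ Asc h (k + 1) + Asc h' (k + 1) := by
  obtain ⟨T, hT⟩ : ∃ T, T = 64 * p ^ 3 + 1 := ⟨_, rfl⟩
  obtain ⟨M, hM⟩ : ∃ M, M = 12 * p * 2 ^ T := ⟨_, rfl⟩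
  have hM0 : 0 < M := by rw [hM]; positivity
  refine ⟨24 * p * M, by positivity, fun n _ hn h h' hh hh' H => ?_⟩
  obtain ⟨k, hk⟩ : ∃ k, k = n / M := ⟨_, rfl⟩
  have hn0 : (0 : ℝ) < n := by exact_mod_cast Nat.pos_of_ne_zero (NeZero.ne n)
  have hp0 : (0 : ℝ) < p := by exact_mod_cast hp
  have k1 : 24 * p ≤ k := by rw [hk]; exact (Nat.le_div_iff_mul_le hM0).2 hn
  have k2 : k * M ≤ n := by rw [hk]; exact Nat.div_mul_le_self n M
  have k3 : n ≤ 2 * k * M := by
    have : n < (k + 1) * M := by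
      rw [hk, mul_comm]; exact Nat.lt_mul_div_succ n hM0
    have h1 : 1 ≤ k := by omega
    nlinarith
  have hk0 : (0 : ℝ) < k := by
    have : 0 < k := by omega
    exact_mod_cast this
  have key : ∀ t, t ≤ T → 32 * (p : ℝ) ^ 3 * (En p h (k * 2 ^ t) + En p h' (k * 2 ^ t))
      ≤ (64 * p ^ 3 - t) * (n * ((k * 2 ^ t : ℕ) : ℝ) ^ 2) := by
    intro t
    induction t with
    | zero =>
      intro _
      have a1 := En_up hh (k * 2 ^ 0)
      have a2 := En_up hh' (k * 2 ^ 0)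
      have := mul_le_mul_of_nonneg_left (add_le_add a1 a2)
        (show (0 : ℝ) ≤ 32 * p ^ 3 by positivity)
      simp only [Nat.cast_zero, sub_zero]
      linarith
    | succ t ih =>
      intro ht
      have ih' := ih (by omega)
      obtain ⟨j, hj⟩ : ∃ j, j = k * 2 ^ t := ⟨_, rfl⟩
      have e : k * 2 ^ (t + 1) = 2 * j := by rw [hj]; ring
      rw [e, En_two, En_two]
      rw [← hj] at ih'
      have t1 : 1 ≤ 2 ^ t := Nat.one_le_two_pow
      have t2 : 2 ^ t ≤ 2 ^ T := Nat.pow_le_pow_right (by norm_num) (by omega)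
      have j1 : k ≤ j := by rw [hj]; exact Nat.le_mul_of_pos_right k t1
      have j2 : 12 * p * j ≤ n := by
        calc 12 * p * j = k * (12 * p * 2 ^ t) := by rw [hj]; ring
          _ ≤ k * M := by rw [hM]; gcongr
          _ ≤ n := k2
      have j3 : 12 * (p : ℝ) * (n ^ 2 / ((24 * p * M : ℕ) : ℝ)) ≤ n * j := by
        have hM' : (0 : ℝ) < M := by exact_mod_cast hM0
        have k3' : (n : ℝ) ≤ 2 * k * M := by exact_mod_cast k3
        have j1' : (k : ℝ) ≤ j := by exact_mod_cast j1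
        have e2 : 12 * (p : ℝ) * (n ^ 2 / ((24 * p * M : ℕ) : ℝ)) = n * (n / (2 * M)) := by
          push_cast; field_simp; ring
        rw [e2]
        refine mul_le_mul_of_nonneg_left ?_ hn0.le
        rw [div_le_iff₀ (by positivity)]
        nlinarith
      have j4 : j ≤ n := by nlinarith
      have s := step hp hh hh' _ (by omega) j2 j3 (H j j4)
      push_cast
      nlinarith
  have fin := key T le_rfl
  have a1 := En_nonneg p h (k * 2 ^ T)
  have a2 := En_nonneg p h' (k * 2 ^ T)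
  have a3 : (0 : ℝ) < n * ((k * 2 ^ T : ℕ) : ℝ) ^ 2 := by push_cast; positivity
  have a4 : (64 * (p : ℝ) ^ 3 - T) = -1 := by rw [hT]; push_cast; ring
  rw [a4] at fin
  have : (0 : ℝ) ≤ 32 * p ^ 3 * (En p h (k * 2 ^ T) + En p h' (k * 2 ^ T)) := by positivity
  linarith

end MP38b55a.UT
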