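import Mathlib

namespace MP38b55a.UT

open Finset

section conv
variable {R : Type*} [Ring R]

/-- union convolution of two set functions -/
def conv (φ χ : Finset ℕ → R) (T : Finset ℕ) : R :=
  ∑ z ∈ (T.powerset ×ˢ T.powerset).filter (fun z => z.1 ∪ z.2 = T), φ z.1 * χ z.2

lemma conv_sum (φ χ : Finset ℕ → R) (S : Finset ℕ) :
    (∑ T ∈ S.powerset, φ T) * (∑ T ∈ S.powerset, χ T) = ∑ T ∈ S.powerset, conv φ χ T := by
  rw [sum_mul_sum, ← sum_product']
  rw [← sum_fiberwise_of_maps_to (s := S.powerset ×ˢ S.powerset) (t := S.powerset)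
    (g := fun z => z.1 ∪ z.2)]
  · refine sum_congr rfl fun T hT => ?_
    unfold conv
    refine sum_congr ?_ fun _ _ => rfl
    ext z
    simp only [mem_filter, mem_product, mem_powerset] at hT ⊢
    constructor
    · rintro ⟨_, h⟩
      exact ⟨⟨h ▸ subset_union_left, h ▸ subset_union_right⟩, h⟩
    · rintro ⟨⟨h1, h2⟩, h⟩
      exact ⟨⟨h1.trans hT, h2.trans hT⟩, h⟩
  · intro z hz
    simp only [mem_product, mem_powerset] at hz ⊢
    exact union_subset hz.1 hz.2

/-- powers for the union convolution -/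
def cpow (φ : Finset ℕ → R) : ℕ → Finset ℕ → R
  | 0 => fun T => if T = ∅ then 1 else 0
  | m + 1 => conv φ (cpow φ m)

lemma cpow_sum (φ : Finset ℕ → R) (S : Finset ℕ) (m : ℕ) :
    (∑ T ∈ S.powerset, φ T) ^ m = ∑ T ∈ S.powerset, cpow φ m T := by
  induction m with
  | zero => simp [cpow]
  | succ m ih => rw [pow_succ', ih, conv_sum]; rfl

lemma moebius_zero (χ : Finset ℕ → R) (U : Finset ℕ)
    (h : ∀ S ⊆ U, ∑ T ∈ S.powerset, χ T = 0) : ∀ T ⊆ U, χ T = 0 := by
  intro T
  induction T using Finset.strongInduction with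
  | H T ih =>
    intro hT
    have h1 := h T hT
    rwa [sum_eq_single T] at h1
    · intro S hS hne
      have hS' := mem_powerset.1 hS
      exact ih S (Finset.ssubset_iff_subset_ne.2 ⟨hS', hne⟩) (hS'.trans hT)
    · intro hn
      exact absurd (mem_powerset_self T) hn

end conv

section filt
variable {ι : Type*} [Fintype ι] [DecidableEq ι] {F : Type*} [Field F] {w : ι → ℤ}

/-- matrices supported on positions of weight at least `δ` -/
def InW (w : ι → ℤ) (δ : ℤ) (X : Matrix ι ι F) : Prop :=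
  ∀ i j, X i j ≠ 0 → δ ≤ w j - w i

omit [Fintype ι] [DecidableEq ι] in
lemma InW.zero (δ : ℤ) : InW w δ (0 : Matrix ι ι F) := fun _ _ h => absurd rfl h

omit [Fintype ι] in
lemma InW.one : InW w 0 (1 : Matrix ι ι F) := by
  intro i j h
  by_cases hij : i = j
  · simp [hij]
  · exact absurd (Matrix.one_apply_ne hij) h

omit [Fintype ι] [DecidableEq ι] in
lemma InW.mono {δ ε : ℤ} {X : Matrix ι ι F} (h : InW w δ X) (hε : ε ≤ δ) : InW w ε X :=
  fun i j hij => hε.trans (h i j hij)

omit [Fintype ι] [DecidableEq ι] in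
lemma InW.add {δ : ℤ} {X Y : Matrix ι ι F} (hX : InW w δ X) (hY : InW w δ Y) :
    InW w δ (X + Y) := by
  intro i j h
  by_cases h1 : X i j = 0
  · refine hY i j fun h2 => h ?_
    rw [Matrix.add_apply, h1, h2, add_zero]
  · exact hX i j h1

omit [Fintype ι] [DecidableEq ι] in
lemma InW.sub {δ : ℤ} {X Y : Matrix ι ι F} (hX : InW w δ X) (hY : InW w δ Y) :
    InW w δ (X - Y) := by
  intro i j h
  by_cases h1 : X i j = 0
  · refine hY i j fun h2 => h ?_
    rw [Matrix.sub_apply, h1, h2, sub_zero]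
  · exact hX i j h1

omit [Fintype ι] [DecidableEq ι] in
lemma InW.sum {α : Type*} {δ : ℤ} {s : Finset α} {f : α → Matrix ι ι F}
    (h : ∀ a ∈ s, InW w δ (f a)) : InW w δ (∑ a ∈ s, f a) :=
  Finset.sum_induction f (InW w δ) (fun _ _ => InW.add) (InW.zero δ) h

omit [DecidableEq ι] in
lemma InW.mul {δ ε : ℤ} {X Y : Matrix ι ι F} (hX : InW w δ X) (hY : InW w ε Y) :
    InW w (δ + ε) (X * Y) := by
  intro i j h
  rw [Matrix.mul_apply] at h
  obtain ⟨l, _, hl⟩ := exists_ne_zero_of_sum_ne_zero h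
  have h1 := hX i l (left_ne_zero_of_mul hl)
  have h2 := hY l j (right_ne_zero_of_mul hl)
  linarith

omit [Fintype ι] [DecidableEq ι] in
lemma InW.entry {δ : ℤ} {X : Matrix ι ι F} (h : InW w δ X) {i j : ι} (hij : w j - w i < δ) :
    X i j = 0 := by
  by_contra hne
  have := h i j hne
  linarith

lemma entry_tight
    (hinj : ∀ i j i' j', w i < w j → w j - w i = w j' - w i' → i = i' ∧ j = j')
    {δ ε : ℤ} {X Y : Matrix ι ι F} (hX : InW w δ X) (hY : InW w ε Y) {i j a b : ι}
    (h : δ + ε = w j - w i) (hab : w a < w b) (hδ : w b - w a = δ) :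
    (X * Y) i j = if i = a then X a b * Y b j else 0 := by
  have key : ∀ l, X i l * Y l j ≠ 0 → a = i ∧ b = l := by
    intro l hl
    have h1 := hX i l (left_ne_zero_of_mul hl)
    have h2 := hY l j (right_ne_zero_of_mul hl)
    exact hinj a b i l hab (by linarith)
  rw [Matrix.mul_apply]
  split_ifs with hia
  · subst hia
    refine sum_eq_single b (fun l _ hl => ?_) (fun hn => absurd (mem_univ _) hn)
    by_contra hne
    exact hl (key l hne).2.symm
  · refine sum_eq_zero fun l _ => ?_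
    by_contra hne
    exact hia (key l hne).1.symm

lemma exists_expansion (M : Submonoid (Matrix ι ι F)) (b : ℕ → Matrix ι ι F) (δ : ℕ → ℤ)
    (r : ℕ) (hb : ∀ k < r, b k ∈ M) (hX : ∀ k < r, InW w (δ k) (b k - 1)) :
    ∃ ψ : Finset ℕ → Matrix ι ι F, ψ ∅ = 1 ∧ (∀ k < r, ψ {k} = b k - 1) ∧
      (∀ T ⊆ range r, InW w (∑ k ∈ T, δ k) (ψ T)) ∧
      ∀ S ⊆ range r, ∑ T ∈ S.powerset, ψ T ∈ M := by
  induction r with
  | zero =>
    refine ⟨fun _ => 1, rfl, fun k hk => absurd hk (Nat.not_lt_zero k), fun T hT => ?_,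
      fun S hS => ?_⟩
    · have : T = ∅ := by simpa using hT
      subst this
      simpa using InW.one
    · have : S = ∅ := by simpa using hS
      subst this
      simp
  | succ r ih =>
    obtain ⟨ψ, h0, h1, h2, h3⟩ := ih (fun k hk => hb k (by omega)) (fun k hk => hX k (by omega))
    have sub : ∀ T ⊆ range (r + 1), T.erase r ⊆ range r := by
      intro T hT x hx
      have a1 := mem_range.1 (hT (mem_of_mem_erase hx))
      have a2 := ne_of_mem_erase hx
      exact mem_range.2 (by omega)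
    refine ⟨fun T => if r ∈ T then ψ (T.erase r) * (b r - 1) else ψ T, by simp [h0],
      fun k hk => ?_, fun T hT => ?_, fun S hS => ?_⟩
    · by_cases hkr : k = r
      · subst hkr
        simp [h0]
      · have : r ∉ ({k} : Finset ℕ) := by simpa using Ne.symm hkr
        simp only [this, if_false]
        exact h1 k (by omega)
    · by_cases hr : r ∈ T
      · simp only [hr, if_true]
        rw [← sum_erase_add _ _ hr]
        exact (h2 _ (sub T hT)).mul (hX r (by omega))
      · simp only [hr, if_false]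
        have := sub T hT
        rw [erase_eq_of_notMem hr] at this
        exact h2 T this
    · by_cases hr : r ∈ S
      · have hS' := sub S hS
        have hn : r ∉ S.erase r := notMem_erase r S
        rw [← insert_erase hr, sum_powerset_insert hn]
        have e1 : ∀ T ∈ (S.erase r).powerset,
            (if r ∈ T then ψ (T.erase r) * (b r - 1) else ψ T) = ψ T := by
          intro T hT
          have : r ∉ T := fun h => hn (mem_powerset.1 hT h)
          simp [this]
        have e2 : ∀ T ∈ (S.erase r).powerset,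
            (if r ∈ insert r T then ψ ((insert r T).erase r) * (b r - 1) else ψ (insert r T))
              = ψ T * (b r - 1) := by
          intro T hT
          have : r ∉ T := fun h => hn (mem_powerset.1 hT h)
          simp [erase_insert this]
        rw [sum_congr rfl e1, sum_congr rfl e2, ← sum_mul]
        have e3 : ∀ Z : Matrix ι ι F, Z + Z * (b r - 1) = Z * b r := by
          intro Z; noncomm_ring
        rw [e3]
        exact M.mul_mem (h3 _ hS') (hb r (by omega))
      · have hS' := sub S hS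
        rw [erase_eq_of_notMem hr] at hS'
        have e1 : ∀ T ∈ S.powerset,
            (if r ∈ T then ψ (T.erase r) * (b r - 1) else ψ T) = ψ T := by
          intro T hT
          have : r ∉ T := fun h => hr (mem_powerset.1 hT h)
          simp [this]
        rw [sum_congr rfl e1]
        exact h3 S hS'

lemma term_bound {δ : ℕ → ℤ} {U : Finset ℕ} (hδ : ∀ k ∈ U, 1 ≤ δ k)
    {φ χ : Finset ℕ → Matrix ι ι F} {m : ℕ} (h0 : φ ∅ = 0)
    (hφ : ∀ T ⊆ U, InW w (∑ k ∈ T, δ k) (φ T))
    (hχ : ∀ T ⊆ U, InW w (∑ k ∈ T, δ k) (χ T))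
    (hχ' : ∀ T ⊆ U, T.card < m → InW w (∑ k ∈ T, δ k + 1) (χ T))
    {T₁ T₂ : Finset ℕ} (hU : T₁ ∪ T₂ ⊆ U) :
    InW w (∑ k ∈ T₁ ∪ T₂, δ k) (φ T₁ * χ T₂) ∧
      (InW w (∑ k ∈ T₁ ∪ T₂, δ k + 1) (φ T₁ * χ T₂) ∨
        (Disjoint T₁ T₂ ∧ 1 ≤ T₁.card ∧ m ≤ T₂.card)) := by
  have u1 : T₁ ⊆ U := subset_union_left.trans hU
  have u2 : T₂ ⊆ U := subset_union_right.trans hU
  have e := sum_union_inter (s₁ := T₁) (s₂ := T₂) (f := δ)
  have c : ((T₁ ∩ T₂).card : ℤ) ≤ ∑ k ∈ T₁ ∩ T₂, δ k := by
    have := sum_le_sum (s := T₁ ∩ T₂) (f := fun _ => (1 : ℤ)) (g := δ)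
      fun k hk => hδ k (u1 (mem_of_mem_inter_left hk))
    simpa using this
  have c0 : (0 : ℤ) ≤ ((T₁ ∩ T₂).card : ℤ) := Int.natCast_nonneg _
  have b := (hφ _ u1).mul (hχ _ u2)
  refine ⟨b.mono (by linarith), ?_⟩
  by_cases h1 : T₁ = ∅
  · left
    rw [h1, h0, zero_mul]
    exact InW.zero _
  by_cases h2 : T₂.card < m
  · left
    exact ((hφ _ u1).mul (hχ' _ u2 h2)).mono (by linarith)
  by_cases h3 : Disjoint T₁ T₂
  · right
    exact ⟨h3, card_pos.2 (nonempty_iff_ne_empty.2 h1), by omega⟩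
  · left
    have : 0 < (T₁ ∩ T₂).card := card_pos.2 (not_disjoint_iff_nonempty_inter.1 h3)
    have : (1 : ℤ) ≤ ((T₁ ∩ T₂).card : ℤ) := by exact_mod_cast this
    exact b.mono (by linarith)

lemma cpow_bound {δ : ℕ → ℤ} {U : Finset ℕ} (hδ : ∀ k ∈ U, 1 ≤ δ k)
    {φ : Finset ℕ → Matrix ι ι F} (h0 : φ ∅ = 0)
    (hφ : ∀ T ⊆ U, InW w (∑ k ∈ T, δ k) (φ T)) (m : ℕ) :
    (∀ T ⊆ U, InW w (∑ k ∈ T, δ k) (cpow φ m T)) ∧
      ∀ T ⊆ U, T.card < m → InW w (∑ k ∈ T, δ k + 1) (cpow φ m T) := by
  induction m with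
  | zero =>
    refine ⟨fun T _ => ?_, fun T _ h => absurd h (Nat.not_lt_zero _)⟩
    by_cases hT : T = ∅
    · subst hT
      simpa [cpow] using InW.one
    · simpa [cpow, hT] using InW.zero _
  | succ m ih =>
    refine ⟨fun T hT => InW.sum fun z hz => ?_, fun T hT hc => InW.sum fun z hz => ?_⟩
    · have e := (mem_filter.1 hz).2
      have := (term_bound hδ h0 hφ ih.1 ih.2 (T₁ := z.1) (T₂ := z.2) (e ▸ hT)).1
      rwa [e] at this
    · have e := (mem_filter.1 hz).2
      rcases (term_bound hδ h0 hφ ih.1 ih.2 (T₁ := z.1) (T₂ := z.2) (e ▸ hT)).2 with h | h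
      · rwa [e] at h
      · have := card_union_of_disjoint h.1
        rw [e] at this
        omega

lemma tele (f : ℕ → ℤ) (r m : ℕ) :
    ∑ k ∈ Ico r (r + m), (f (k + 1) - f k) = f (r + m) - f r := by
  induction m with
  | zero => simp
  | succ m ih => rw [← add_assoc, sum_Ico_succ_top (by omega), ih]; ring

theorem nopath
    (hinj : ∀ i j i' j', w i < w j → w j - w i = w j' - w i' → i = i' ∧ j = j')
    (M : Submonoid (Matrix ι ι F)) {p : ℕ} (hM : ∀ a ∈ M, (a - 1) ^ p = 0)
    (v : ℕ → ι) (b : ℕ → Matrix ι ι F) (hb : ∀ k < p, b k ∈ M)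
    (hv : ∀ k < p, w (v k) < w (v (k + 1)))
    (hW : ∀ k < p, InW w (w (v (k + 1)) - w (v k)) (b k - 1))
    (hne : ∀ k < p, (b k - 1) (v k) (v (k + 1)) ≠ 0) : False := by
  obtain ⟨ψ, h0, h1, h2, h3⟩ :=
    exists_expansion M b (fun k => w (v (k + 1)) - w (v k)) p hb hW
  obtain ⟨φ, hφ⟩ : ∃ φ : Finset ℕ → Matrix ι ι F, φ = fun T => ψ T - if T = ∅ then 1 else 0 :=
    ⟨_, rfl⟩
  have p0 : φ ∅ = 0 := by simp [hφ, h0]
  have p1 : ∀ k < p, φ {k} = b k - 1 := by
    intro k hk
    simp [hφ, h1 k hk]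
  have p2 : ∀ T ⊆ range p, InW w (∑ k ∈ T, (w (v (k + 1)) - w (v k))) (φ T) := by
    intro T hT
    by_cases h : T = ∅
    · rw [h, p0]; exact InW.zero _
    · simpa [hφ, h] using h2 T hT
  have p3 : ∀ T ⊆ range p, cpow φ p T = 0 := by
    refine moebius_zero _ _ fun S hS => ?_
    rw [← cpow_sum]
    have : ∑ T ∈ S.powerset, φ T = ∑ T ∈ S.powerset, ψ T - 1 := by
      simp [hφ, sum_sub_distrib]
    rw [this]
    exact hM _ (h3 S hS)
  have hδ : ∀ k ∈ range p, 1 ≤ w (v (k + 1)) - w (v k) := by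
    intro k hk
    have := hv k (mem_range.1 hk)
    linarith
  have mono : ∀ r m, r + (m + 1) ≤ p → w (v r) < w (v (r + (m + 1))) := by
    intro r m
    induction m with
    | zero => intro h; exact hv r (by omega)
    | succ m ih => intro h; exact (ih (by omega)).trans (hv _ (by omega))
  have key : ∀ m r, r + m = p → cpow φ m (Ico r p) (v r) (v p) ≠ 0 := by
    intro m
    induction m with
    | zero =>
      intro r hr
      have : r = p := by omega
      subst this
      simp [cpow]
    | succ m ih =>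
      intro r hr
      have hrp : r < p := by omega
      have ih' := ih (r + 1) (by omega)
      have bd := cpow_bound hδ p0 p2 m
      have hsub : Ico r p ⊆ range p := fun x hx => mem_range.2 (mem_Ico.1 hx).2
      have hD : ∑ k ∈ Ico r p, (w (v (k + 1)) - w (v k)) = w (v p) - w (v r) := by
        have := tele (fun k => w (v k)) r (m + 1)
        rwa [hr] at this
      have tight : ∀ k T, k < p → k ∉ T → {k} ∪ T = Ico r p →
          (φ {k} * cpow φ m T) (v r) (v p)
            = if v r = v k then φ {k} (v k) (v (k + 1)) * cpow φ m T (v (k + 1)) (v p)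
              else 0 := by
        intro k T hk hkT hU
        have hT : T ⊆ range p := (hU ▸ subset_union_right : T ⊆ Ico r p).trans hsub
        refine entry_tight hinj (p1 k hk ▸ hW k hk) (bd.1 T hT) ?_ (hv k hk) rfl
        rw [← hD, ← hU, sum_union (disjoint_singleton_left.2 hkT), sum_singleton]
      have hU0 : ({r} : Finset ℕ) ∪ Ico (r + 1) p = Ico r p := by
        ext x; simp only [mem_union, mem_singleton, mem_Ico]; omega
      have hz0 : (({r}, Ico (r + 1) p) : Finset ℕ × Finset ℕ) ∈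
          ((Ico r p).powerset ×ˢ (Ico r p).powerset).filter (fun z => z.1 ∪ z.2 = Ico r p) := by
        simp only [mem_filter, mem_product, mem_powerset]
        exact ⟨⟨hU0 ▸ subset_union_left, hU0 ▸ subset_union_right⟩, hU0⟩
      change conv φ (cpow φ m) (Ico r p) (v r) (v p) ≠ 0
      unfold conv
      rw [Matrix.sum_apply, sum_eq_single_of_mem _ hz0]
      · rw [tight r _ hrp (by simp) hU0, if_pos rfl, p1 r hrp]
        exact mul_ne_zero (hne r hrp) ih'
      · intro z hz hzne
        have e := (mem_filter.1 hz).2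
        rcases (term_bound hδ p0 p2 bd.1 bd.2 (T₁ := z.1) (T₂ := z.2) (e ▸ hsub)).2 with h | h
        · rw [e, hD] at h
          exact h.entry (by linarith)
        · have c := card_union_of_disjoint h.1
          rw [e, Nat.card_Ico] at c
          have c1 : z.1.card = 1 := by omega
          obtain ⟨k, hk⟩ := card_eq_one.1 c1
          have hkI : k ∈ Ico r p := by
            rw [← e, hk]; simp
          have hk2 : k ∉ z.2 := disjoint_singleton_left.1 (hk ▸ h.1)
          have hkr := mem_Ico.1 hkI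
          rw [hk, tight k z.2 hkr.2 hk2 (hk ▸ e)]
          rw [if_neg]
          intro hvk
          by_cases hkr' : k = r
          · apply hzne
            subst hkr'
            refine Prod.ext hk ?_
            rw [hk] at e
            ext x
            have ex : x ∈ ({k} : Finset ℕ) ∪ z.2 ↔ x ∈ Ico k p := by rw [e]
            simp only [mem_union, mem_singleton, mem_Ico] at ex ⊢
            constructor
            · intro hx
              have : x ≠ k := fun hh => hk2 (hh ▸ hx)
              have := ex.1 (Or.inr hx)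
              omega
            · intro hx
              rcases ex.2 ⟨by omega, hx.2⟩ with h' | h'
              · omega
              · exact h'
          · obtain ⟨d, hd⟩ : ∃ d, k = r + (d + 1) := ⟨k - r - 1, by omega⟩
            have := mono r d (by omega)
            rw [← hd, hvk] at this
            exact lt_irrefl _ this
  apply key p 0 (zero_add p)
  rw [p3 _ (by simp)]
  rfl

/-- leading positions of the elements of `A` -/
def Edge (w : ι → ℤ) (A : Subgroup (GL ι F)) (i j : ι) : Prop :=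
  w i < w j ∧ ∃ a ∈ A, InW w (w j - w i) ((a : Matrix ι ι F) - 1) ∧
    ((a : Matrix ι ι F) - 1) i j ≠ 0

lemma agree {A : Subgroup (GL ι F)} (hA : ∀ a ∈ A, InW w 1 ((a : Matrix ι ι F) - 1))
    {a a' : GL ι F} (ha : a ∈ A) (ha' : a' ∈ A) (t : ℤ)
    (h : ∀ i j, Edge w A i j → w j - w i < t →
      (a : Matrix ι ι F) i j = (a' : Matrix ι ι F) i j) :
    InW w t ((a' : Matrix ι ι F) - (a : Matrix ι ι F)) := by
  classical
  intro i j hij
  by_contra hlt
  obtain ⟨Y, hY⟩ : ∃ Y, Y = (a' : Matrix ι ι F) - (a : Matrix ι ι F) := ⟨_, rfl⟩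
  rw [← hY] at hij
  obtain ⟨z, hz, hmin⟩ := exists_min_image
    ((univ : Finset (ι × ι)).filter fun z => Y z.1 z.2 ≠ 0) (fun z => w z.2 - w z.1)
    ⟨(i, j), by simpa using hij⟩
  have hz' := (mem_filter.1 hz).2
  have y1 : InW w (w z.2 - w z.1) Y := fun i' j' h' => hmin (i', j') (by simpa using h')
  have y2 : InW w 1 Y := by
    have := (hA a' ha').sub (hA a ha)
    rwa [sub_sub_sub_cancel_right, ← hY] at this
  have y3 := y2 _ _ hz'
  have y4 := y1 _ _ hij
  have e : ((a⁻¹ * a' : GL ι F) : Matrix ι ι F) - 1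
      = Y + (((a⁻¹ : GL ι F) : Matrix ι ι F) - 1) * Y := by
    have : ((a⁻¹ : GL ι F) : Matrix ι ι F) * (a : Matrix ι ι F) = 1 := Units.inv_mul a
    rw [hY, Units.val_mul, ← this]
    rw [sub_mul, this, one_mul, mul_sub, this]
    abel
  have y5 := (hA _ (A.inv_mem ha)).mul y1
  have hE : Edge w A z.1 z.2 := by
    refine ⟨by linarith, a⁻¹ * a', A.mul_mem (A.inv_mem ha) ha', ?_, ?_⟩
    · rw [e]
      exact y1.add (y5.mono (by linarith))
    · rw [e, Matrix.add_apply, y5.entry (by linarith), add_zero]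
      exact hz'
  have := h _ _ hE (by linarith)
  apply hz'
  rw [hY, Matrix.sub_apply, this, sub_self]

open Classical in
theorem count [Finite F] {G A B : Subgroup (GL ι F)}
    (hA : ∀ a ∈ A, InW w 1 ((a : Matrix ι ι F) - 1))
    (hB : ∀ a ∈ B, InW w 1 ((a : Matrix ι ι F) - 1))
    (hG : ∀ g ∈ G, ∃ a ∈ A, ∃ b ∈ B, g = a * b) (t : ℤ) :
    Nat.card G ≤ Nat.card F ^
      (((univ : Finset (ι × ι)).filter fun z => Edge w A z.1 z.2 ∧ w z.2 - w z.1 < t).card
      + ((univ : Finset (ι × ι)).filter fun z => Edge w B z.1 z.2 ∧ w z.2 - w z.1 < t).card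
      + ((univ : Finset (ι × ι)).filter fun z => t ≤ w z.2 - w z.1).card) := by
  choose! a ha b hb hab using hG
  set EA := (univ : Finset (ι × ι)).filter fun z => Edge w A z.1 z.2 ∧ w z.2 - w z.1 < t
  set EB := (univ : Finset (ι × ι)).filter fun z => Edge w B z.1 z.2 ∧ w z.2 - w z.1 < t
  set Hi := (univ : Finset (ι × ι)).filter fun z => t ≤ w z.2 - w z.1
  let Ψ : G → (EA → F) × (EB → F) × (Hi → F) := fun g =>
    (fun z => (a g : Matrix ι ι F) z.1.1 z.1.2, fun z => (b g : Matrix ι ι F) z.1.1 z.1.2,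
      fun z => ((g : GL ι F) : Matrix ι ι F) z.1.1 z.1.2)
  have inj : Function.Injective Ψ := by
    intro g g' h
    simp only [Ψ, Prod.mk.injEq] at h
    obtain ⟨h1, h2, h3⟩ := h
    have a1 := agree hA (ha _ g.2) (ha _ g'.2) t fun i j hE ht =>
      congrFun h1 ⟨(i, j), mem_filter.2 ⟨mem_univ _, hE, ht⟩⟩
    have a2 := agree hB (hb _ g.2) (hb _ g'.2) t fun i j hE ht =>
      congrFun h2 ⟨(i, j), mem_filter.2 ⟨mem_univ _, hE, ht⟩⟩
    have u : ∀ X : Matrix ι ι F, InW w 1 (X - 1) → InW w 0 X := by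
      intro X hX
      have := (hX.mono zero_le_one).add InW.one
      rwa [sub_add_cancel] at this
    have a3 := (a1.mul (u _ (hB _ (hb _ g'.2)))).mono (ε := t) (by linarith)
    have a4 := ((u _ (hA _ (ha _ g.2))).mul a2).mono (ε := t) (by linarith)
    have a5 := a3.add a4
    have e : ((a g' : Matrix ι ι F) - (a g : Matrix ι ι F)) * (b g' : Matrix ι ι F)
        + (a g : Matrix ι ι F) * ((b g' : Matrix ι ι F) - (b g : Matrix ι ι F))
        = ((g' : GL ι F) : Matrix ι ι F) - ((g : GL ι F) : Matrix ι ι F) := by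
      conv_rhs => rw [hab _ g.2, hab _ g'.2]
      simp only [Units.val_mul]
      noncomm_ring
    rw [e] at a5
    apply Subtype.ext
    apply Units.ext
    ext i j
    by_cases ht : t ≤ w j - w i
    · exact congrFun h3 ⟨(i, j), mem_filter.2 ⟨mem_univ _, ht⟩⟩
    · have := a5.entry (not_le.1 ht)
      rw [Matrix.sub_apply, sub_eq_zero] at this
      exact this.symm
  have := Nat.card_le_card_of_injective Ψ inj
  simpa [Nat.card_prod, Nat.card_fun, pow_add, mul_assoc] using this

end filt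

end MP38b55a.UT
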