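import Pool.Agent.MP_38b55a_al.UT.Comb
import Pool.Agent.MP_38b55a_al.UT.Grp

namespace MP38b55a.UT

open Finset

/-- a convex weight on the coordinates -/
def wt (n : ℕ) (i : Fin n) : ℤ := (n : ℤ) ^ 2 * (i : ℕ) + ((i : ℕ) : ℤ) ^ 2

lemma wt_bounds {n : ℕ} {i j : Fin n} (h : i < j) :
    (n : ℤ) ^ 2 * ((j : ℕ) - (i : ℕ)) < wt n j - wt n i ∧
      wt n j - wt n i < (n : ℤ) ^ 2 * ((j : ℕ) - (i : ℕ) + 1) := by
  have h1 : ((i : ℕ) : ℤ) < (j : ℕ) := by exact_mod_cast h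
  have h2 : ((j : ℕ) : ℤ) < n := by exact_mod_cast j.2
  have h3 : (0 : ℤ) ≤ (i : ℕ) := Int.natCast_nonneg _
  unfold wt
  constructor <;> nlinarith

lemma wt_lt {n : ℕ} {i j : Fin n} : wt n i < wt n j ↔ i < j := by
  have key : ∀ a b : Fin n, a < b → wt n a < wt n b := by
    intro a b h
    have h1 : ((a : ℕ) : ℤ) < (b : ℕ) := by exact_mod_cast h
    have := (wt_bounds h).1
    nlinarith [sq_nonneg (n : ℤ)]
  refine ⟨fun h => ?_, key i j⟩
  rcases lt_trichotomy i j with c | c | c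
  · exact c
  · rw [c] at h; exact absurd h (lt_irrefl _)
  · exact absurd (key j i c) h.not_gt

lemma wt_thr {n : ℕ} {i j : Fin n} (h : i < j) (k : ℕ) :
    wt n j - wt n i < (n : ℤ) ^ 2 * (k + 1) ↔ (j : ℕ) ≤ i + k := by
  have b := wt_bounds h
  have hn : (0 : ℤ) < (n : ℤ) ^ 2 := by
    have : 0 < n := Nat.pos_of_ne_zero (by rintro rfl; exact i.elim0)
    positivity
  constructor
  · intro h1
    have := lt_of_mul_lt_mul_left (b.1.trans h1) hn.le
    omega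
  · intro h1
    have h2 : ((j : ℕ) : ℤ) - (i : ℕ) + 1 ≤ k + 1 := by omega
    exact b.2.trans_le (mul_le_mul_of_nonneg_left h2 hn.le)

lemma wt_inj {n : ℕ} (i j i' j' : Fin n) (h : wt n i < wt n j)
    (e : wt n j - wt n i = wt n j' - wt n i') : i = i' ∧ j = j' := by
  have h1 := wt_lt.1 h
  have h2 : i' < j' := wt_lt.1 (by linarith)
  have b := wt_bounds h1
  have b' := wt_bounds h2
  have hn : (0 : ℤ) ≤ (n : ℤ) ^ 2 := sq_nonneg _
  have c1 := lt_of_mul_lt_mul_left (b.1.trans (e ▸ b'.2)) hn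
  have c2 := lt_of_mul_lt_mul_left (b'.1.trans (e ▸ b.2)) hn
  have d1 : ((i : ℕ) : ℤ) < (j : ℕ) := by exact_mod_cast h1
  obtain ⟨d, hd⟩ : ∃ d : ℤ, d = (j : ℕ) - (i : ℕ) := ⟨_, rfl⟩
  have e1 : ((j : ℕ) : ℤ) = (i : ℕ) + d := by omega
  have e2 : ((j' : ℕ) : ℤ) = (i' : ℕ) + d := by omega
  unfold wt at e
  rw [e1, e2] at e
  have e3 : d * (((i : ℕ) : ℤ) - (i' : ℕ)) = 0 := by nlinarith
  rcases mul_eq_zero.1 e3 with z | z
  · omega
  · exact ⟨Fin.ext (by omega), Fin.ext (by omega)⟩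

lemma inW_of_tri {n : ℕ} {F : Type*} [Field F] {g : Matrix (Fin n) (Fin n) F}
    (h : ∀ i j : Fin n, j ≤ i → g i j = (1 : Matrix (Fin n) (Fin n) F) i j) :
    InW (wt n) 1 (g - 1) := by
  intro i j hij
  by_cases c : j ≤ i
  · exact absurd (by rw [Matrix.sub_apply, h i j c, sub_self]) hij
  · have := wt_lt.2 (not_le.1 c)
    linarith

lemma exists_rank {α : Type*} (E : α → α → Prop) (p : ℕ)
    (h : ∀ v : ℕ → α, ¬ ∀ k < p, E (v k) (v (k + 1))) :
    ∃ r : α → ℕ, (∀ x, r x < p) ∧ ∀ x y, E x y → r x < r y := by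
  classical
  let P : α → ℕ → Prop := fun x m => ∃ v : ℕ → α, v m = x ∧ ∀ k < m, E (v k) (v (k + 1))
  have P0 : ∀ x, P x 0 := fun x => ⟨fun _ => x, rfl, fun k hk => absurd hk (Nat.not_lt_zero k)⟩
  have sp : ∀ x, P x (Nat.findGreatest (P x) p) := fun x =>
    Nat.findGreatest_spec (Nat.zero_le p) (P0 x)
  have lt : ∀ x, Nat.findGreatest (P x) p < p := by
    intro x
    refine lt_of_le_of_ne (Nat.findGreatest_le p) fun e => ?_
    obtain ⟨v, _, hv⟩ := sp x
    rw [e] at hv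
    exact h v hv
  refine ⟨fun x => Nat.findGreatest (P x) p, lt, fun x y hxy => ?_⟩
  obtain ⟨v, hv1, hv2⟩ := sp x
  change Nat.findGreatest (P x) p + 1 ≤ Nat.findGreatest (P y) p
  refine Nat.le_findGreatest (lt x) ?_
  refine ⟨fun k => if k ≤ Nat.findGreatest (P x) p then v k else y, by simp, fun k hk => ?_⟩
  have h1 : k ≤ Nat.findGreatest (P x) p := by omega
  by_cases h2 : k + 1 ≤ Nat.findGreatest (P x) p
  · simp only [h1, h2, if_true]
    exact hv2 k (by omega)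
  · have h3 : k = Nat.findGreatest (P x) p := by omega
    simp only [h1, h2, if_true, if_false]
    rw [h3, hv1]
    exact hxy

lemma unip {p : ℕ} (hp : p.Prime) {n : ℕ} [NeZero n] {F : Type*} [Field F] [CharP F p]
    (g : Matrix (Fin n) (Fin n) F) (e : ℕ) : (g - 1) ^ p ^ e = g ^ p ^ e - 1 := by
  have := Fact.mk hp
  rw [sub_pow_char_pow_of_commute p e (Commute.one_right g), one_pow]

open Classical in
lemma edge_card {p : ℕ} (hp : p.Prime) {n : ℕ} [NeZero n] {F : Type*} [Field F] [CharP F p]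
    (A : Subgroup (GL (Fin n) F)) (hA : ∀ a ∈ A, a ^ p = 1) :
    ∃ h : ZMod n → ℕ, (∀ x, h x < p) ∧ ∀ k : ℕ,
      (((univ : Finset (Fin n × Fin n)).filter fun z => Edge (wt n) A z.1 z.2 ∧
        wt n z.2 - wt n z.1 < (n : ℤ) ^ 2 * (k + 1)).card : ℝ) ≤ Asc h (k + 1) := by
  obtain ⟨r, r1, r2⟩ := exists_rank (Edge (wt n) A) p (by
    intro v hv
    choose! b hb1 hb2 hb3 using fun k hk => (hv k hk).2
    refine nopath wt_inj (A.toSubmonoid.map (Units.coeHom _)) (p := p) ?_ v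
      (fun k => (b k : Matrix (Fin n) (Fin n) F)) (fun k hk => ⟨b k, hb1 k hk, rfl⟩)
      (fun k hk => (hv k hk).1) hb2 hb3
    rintro _ ⟨a, ha, rfl⟩
    have := unip hp (a : Matrix (Fin n) (Fin n) F) 1
    rw [pow_one, ← Units.val_pow_eq_pow_val, hA a ha, Units.val_one, sub_self] at this
    exact this)
  refine ⟨fun x => r ⟨x.val, ZMod.val_lt x⟩, fun x => r1 _, fun k => ?_⟩
  unfold Asc
  rw [← sum_product', sum_boole]
  refine Nat.cast_le.2 (card_le_card_of_injOn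
    (fun z => ((z.2 : ℕ) - (z.1 : ℕ), (((z.1 : ℕ) : ZMod n)))) ?_ ?_)
  · intro z hz
    obtain ⟨hE, ht⟩ := (mem_filter.1 (mem_coe.1 hz)).2
    have hlt := wt_lt.1 hE.1
    have hk := (wt_thr hlt k).1 ht
    have hlt' : (z.1 : ℕ) < z.2 := hlt
    have e : ((z.1 : ℕ) : ZMod n) + (((z.2 : ℕ) - (z.1 : ℕ) : ℕ) : ZMod n)
        = ((z.2 : ℕ) : ZMod n) := by
      rw [Nat.cast_sub hlt'.le]; ring
    simp only [coe_filter, mem_product, mem_range, mem_univ, and_true, Set.mem_ofPred_eq, e,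
      ZMod.val_cast_of_lt z.1.2, ZMod.val_cast_of_lt z.2.2]
    exact ⟨by omega, r2 _ _ hE⟩
  · intro z hz z' hz' e
    have h1 : (z.1 : ℕ) < z.2 := wt_lt.1 (mem_filter.1 (mem_coe.1 hz)).2.1.1
    have h2 : (z'.1 : ℕ) < z'.2 := wt_lt.1 (mem_filter.1 (mem_coe.1 hz')).2.1.1
    simp only [Prod.mk.injEq] at e
    have e2 := congrArg ZMod.val e.2
    rw [ZMod.val_cast_of_lt z.1.2, ZMod.val_cast_of_lt z'.1.2] at e2
    exact Prod.ext (Fin.ext e2) (Fin.ext (by omega))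

lemma hi_card (n k : ℕ) :
    ((univ : Finset (Fin n × Fin n)).filter fun z =>
      (n : ℤ) ^ 2 * (k + 1) ≤ wt n z.2 - wt n z.1).card + (n - k) * k ≤ n.choose 2 := by
  have h0 := Fintype.card_product_filter_lt (α := Fin n)
  rw [Fintype.card_fin] at h0
  rw [← h0]
  set Hi := (univ : Finset (Fin n × Fin n)).filter fun z =>
      (n : ℤ) ^ 2 * (k + 1) ≤ wt n z.2 - wt n z.1 with hHi
  set Lo := (univ : Finset (Fin n × Fin n)).filter fun z =>
      z.1 < z.2 ∧ (z.2 : ℕ) ≤ z.1 + k with hLo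
  have pos : ∀ z ∈ Hi, z.1 < z.2 := by
    intro z hz
    have h1 := (mem_filter.1 hz).2
    have hn : 0 < n := Nat.pos_of_ne_zero (by rintro rfl; exact z.1.elim0)
    have : (0 : ℤ) < (n : ℤ) ^ 2 * (k + 1) := by positivity
    exact wt_lt.1 (by linarith)
  have dis : Disjoint Hi Lo := by
    rw [disjoint_left]
    intro z hz hz'
    have h1 := (mem_filter.1 hz).2
    have h2 := (mem_filter.1 hz').2
    have := (wt_thr h2.1 k).2 h2.2
    linarith
  have lo : (n - k) * k ≤ Lo.card := by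
    have := card_le_card_of_surjOn (s := Lo) (t := range (n - k) ×ˢ range k)
      (fun z => ((z.1 : ℕ), (z.2 : ℕ) - (z.1 : ℕ) - 1)) (by
        intro y hy
        have hy' := mem_product.1 (mem_coe.1 hy)
        have y1 := mem_range.1 hy'.1
        have y2 := mem_range.1 hy'.2
        refine ⟨(⟨y.1, by omega⟩, ⟨y.1 + y.2 + 1, by omega⟩), ?_, ?_⟩
        · refine mem_coe.2 (mem_filter.2 ⟨mem_univ _, ?_, ?_⟩)
          · exact Fin.mk_lt_mk.2 (by omega)
          · change y.1 + y.2 + 1 ≤ y.1 + k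
            omega
        · refine Prod.ext rfl ?_
          change y.1 + y.2 + 1 - y.1 - 1 = y.2
          omega)
    simpa using this
  have sub : Hi ∪ Lo ⊆ (univ : Finset (Fin n × Fin n)).filter fun z => z.1 < z.2 := by
    intro z hz
    rcases mem_union.1 hz with h | h
    · exact mem_filter.2 ⟨mem_univ _, pos z h⟩
    · exact mem_filter.2 ⟨mem_univ _, (mem_filter.1 h).2.1⟩
  have := card_le_card sub
  rw [card_union_of_disjoint dis] at this
  omega

theorem degree_bound {p : ℕ} (hp : p.Prime) : ∃ N : ℕ, 0 < N ∧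
    ∀ (F : Type) [Field F] [Finite F] [CharP F p] (n : ℕ) (G A B : Subgroup (GL (Fin n) F)),
      (∀ g ∈ G, ∀ i j : Fin n, j ≤ i →
        (g : Matrix (Fin n) (Fin n) F) i j = (1 : Matrix (Fin n) (Fin n) F) i j) →
      A ≤ G → B ≤ G → (∀ a ∈ A, a ^ p = 1) → (∀ b ∈ B, b ^ p = 1) →
      (∀ g ∈ G, ∃ a ∈ A, ∃ b ∈ B, g = a * b) →
      Nat.card F ^ (N * n.choose 2) < Nat.card G ^ N * Nat.card F ^ (n ^ 2) → n < N := by
  classical
  obtain ⟨N, hN, hc⟩ := comb hp.pos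
  refine ⟨N, hN, fun F _ _ _ n G A B hG hA hB eA eB hAB hcard => ?_⟩
  by_contra hn
  have hn' : N ≤ n := not_lt.1 hn
  have : NeZero n := ⟨by omega⟩
  obtain ⟨h, h1, h2⟩ := edge_card hp A eA
  obtain ⟨h', h1', h2'⟩ := edge_card hp B eB
  refine hc n hn' h h' h1 h1' fun k hk => ?_
  have c := count (w := wt n) (fun a ha => inW_of_tri (hG a (hA ha)))
    (fun a ha => inW_of_tri (hG a (hB ha))) hAB ((n : ℤ) ^ 2 * (k + 1))
  have c2 := hi_card n k
  have a1 := h2 k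
  have a2 := h2' k
  set EA := ((univ : Finset (Fin n × Fin n)).filter fun z => Edge (wt n) A z.1 z.2 ∧
        wt n z.2 - wt n z.1 < (n : ℤ) ^ 2 * (k + 1)).card
  set EB := ((univ : Finset (Fin n × Fin n)).filter fun z => Edge (wt n) B z.1 z.2 ∧
        wt n z.2 - wt n z.1 < (n : ℤ) ^ 2 * (k + 1)).card
  set Hi := ((univ : Finset (Fin n × Fin n)).filter fun z =>
      (n : ℤ) ^ 2 * (k + 1) ≤ wt n z.2 - wt n z.1).card
  have q1 : 1 < Nat.card F := Finite.one_lt_card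
  have c3 : Nat.card F ^ (N * n.choose 2) < Nat.card F ^ ((EA + EB + Hi) * N + n ^ 2) := by
    refine hcard.trans_le ?_
    rw [pow_add, pow_mul]
    exact Nat.mul_le_mul_right _ (Nat.pow_le_pow_left c N)
  have c4 := (Nat.pow_lt_pow_iff_right q1).1 c3
  have c5 : N * ((n - k) * k) ≤ (EA + EB) * N + n ^ 2 := by
    have := Nat.mul_le_mul_left N c2
    nlinarith
  have c6 : (N : ℝ) * ((n - k) * k) ≤ (EA + EB) * N + n ^ 2 := by
    have := (Nat.cast_le (α := ℝ)).2 c5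
    push_cast [Nat.cast_sub hk] at this
    exact this
  have hN' : (0 : ℝ) < N := by exact_mod_cast hN
  have c7 : (k : ℝ) * n - k ^ 2 - (EA + EB) ≤ n ^ 2 / N := by
    rw [le_div_iff₀ hN']
    nlinarith
  linarith

lemma pow_inW {n : ℕ} {F : Type*} [Field F] {X : Matrix (Fin n) (Fin n) F}
    (h : InW (fun i : Fin n => ((i : ℕ) : ℤ)) 1 X) (m : ℕ) :
    InW (fun i : Fin n => ((i : ℕ) : ℤ)) m (X ^ m) := by
  induction m with
  | zero => simpa using InW.one
  | succ m ih =>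
    rw [pow_succ]
    exact_mod_cast ih.mul h

lemma tri_pow {p : ℕ} (hp : p.Prime) {n e : ℕ} (hn : n ≤ p ^ e) {F : Type*} [Field F]
    [CharP F p] (g : GL (Fin n) F)
    (h : ∀ i j : Fin n, j ≤ i →
      (g : Matrix (Fin n) (Fin n) F) i j = (1 : Matrix (Fin n) (Fin n) F) i j) :
    g ^ p ^ e = 1 := by
  rcases Nat.eq_zero_or_pos n with rfl | hpos
  · exact Subsingleton.elim _ _
  have : NeZero n := ⟨by omega⟩
  have h1 : InW (fun i : Fin n => ((i : ℕ) : ℤ)) 1 ((g : Matrix (Fin n) (Fin n) F) - 1) := by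
    intro i j hij
    by_cases c : j ≤ i
    · exact absurd (by rw [Matrix.sub_apply, h i j c, sub_self]) hij
    · have : (i : ℕ) < j := not_le.1 c
      change (1 : ℤ) ≤ ((j : ℕ) : ℤ) - ((i : ℕ) : ℤ)
      omega
  have h2 : ((g : Matrix (Fin n) (Fin n) F) - 1) ^ p ^ e = 0 := by
    ext i j
    refine (pow_inW h1 (p ^ e)).entry ?_
    have := j.2
    change ((j : ℕ) : ℤ) - ((i : ℕ) : ℤ) < ((p ^ e : ℕ) : ℤ)
    omega
  rw [unip hp, sub_eq_zero] at h2
  apply Units.ext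
  rw [Units.val_pow_eq_pow_val, h2, Units.val_one]

lemma weaken {x y z a b : ℕ} (hy : 0 < y) (hz : 1 < z) (hab : a ≤ b)
    (h : x ^ b < y ^ b * z) : x ^ a < y ^ a * z := by
  rcases le_or_gt x y with c | c
  · have h1 : x ^ a ≤ y ^ a := Nat.pow_le_pow_left c a
    have h2 : 0 < y ^ a := by positivity
    nlinarith
  · obtain ⟨r, rfl⟩ := Nat.exists_eq_add_of_le hab
    have h1 : y ^ r ≤ x ^ r := Nat.pow_le_pow_left c.le r
    have h2 : x ^ a * x ^ r < y ^ a * z * x ^ r := by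
      calc x ^ a * x ^ r = x ^ (a + r) := (pow_add _ _ _).symm
        _ < y ^ (a + r) * z := h
        _ = y ^ a * z * y ^ r := by ring
        _ ≤ y ^ a * z * x ^ r := Nat.mul_le_mul_left _ h1
    exact lt_of_mul_lt_mul_right h2 (Nat.zero_le _)

lemma corner_mul {F : Type*} [Field F] {m n : ℕ} (hmn : m ≤ n) (X Y : Matrix (Fin n) (Fin n) F)
    (hY : ∀ i j : Fin n, j ≤ i → Y i j = (1 : Matrix (Fin n) (Fin n) F) i j) :
    (X * Y).submatrix (Fin.castLE hmn) (Fin.castLE hmn)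
      = X.submatrix (Fin.castLE hmn) (Fin.castLE hmn)
        * Y.submatrix (Fin.castLE hmn) (Fin.castLE hmn) := by
  ext i j
  simp only [Matrix.submatrix_apply, Matrix.mul_apply]
  symm
  refine sum_of_injOn (Fin.castLE hmn) (Fin.castLE_injective hmn).injOn
    (fun _ _ => mem_coe.2 (mem_univ _)) (fun l _ hl => ?_) (fun _ _ => rfl)
  have h1 : m ≤ l := by
    by_contra h
    exact hl ⟨⟨l, not_le.1 h⟩, mem_coe.2 (mem_univ _), rfl⟩
  have h2 : Fin.castLE hmn j < l := by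
    have := j.2
    change (j : ℕ) < l
    omega
  rw [hY l _ h2.le, Matrix.one_apply_ne h2.ne', mul_zero]

theorem corner_bound {p : ℕ} (hp : p.Prime) : ∃ N : ℕ, 0 < N ∧
    ∀ (F : Type) [Field F] [Finite F] [CharP F p] (m n : ℕ) (hmn : m ≤ n)
      (G A B : Subgroup (GL (Fin n) F)),
      (∀ g ∈ G, ∀ i j : Fin n, j ≤ i →
        (g : Matrix (Fin n) (Fin n) F) i j = (1 : Matrix (Fin n) (Fin n) F) i j) →
      A ≤ G → B ≤ G → (∀ a ∈ A, a ^ p = 1) → (∀ b ∈ B, b ^ p = 1) →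
      (∀ g ∈ G, ∃ a ∈ A, ∃ b ∈ B, g = a * b) →
      Nat.card F ^ (N * m.choose 2) <
        ((fun g : GL (Fin n) F => (g : Matrix (Fin n) (Fin n) F).submatrix
          (Fin.castLE hmn) (Fin.castLE hmn)) '' G).ncard ^ N * Nat.card F ^ (m ^ 2) →
      m < N := by
  obtain ⟨N, hN, hd⟩ := degree_bound hp
  refine ⟨N, hN, fun F _ _ _ m n hmn G A B hG hA hB eA eB hAB hcard => ?_⟩
  let π₀ : G →* Matrix (Fin m) (Fin m) F :=
    { toFun := fun g => ((g : GL (Fin n) F) : Matrix (Fin n) (Fin n) F).submatrix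
        (Fin.castLE hmn) (Fin.castLE hmn)
      map_one' := Matrix.submatrix_one _ (Fin.castLE_injective hmn)
      map_mul' := fun g g' => corner_mul hmn _ _ (hG _ g'.2) }
  let π : G →* GL (Fin m) F := π₀.toHomUnits
  have ex : ∀ {C : Subgroup (GL (Fin n) F)}, (∀ a ∈ C, a ^ p = 1) →
      ∀ a ∈ (C.subgroupOf G).map π, a ^ p = 1 := by
    rintro C hC _ ⟨a, ha, rfl⟩
    have : a ^ p = 1 := Subtype.ext (hC _ ha)
    rw [← map_pow, this, map_one]
  refine hd F m π.range ((A.subgroupOf G).map π) ((B.subgroupOf G).map π) ?_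
    (Subgroup.map_le_range _ _) (Subgroup.map_le_range _ _) (ex eA) (ex eB) ?_ ?_
  · rintro _ ⟨g, rfl⟩ i j hij
    have := hG _ g.2 (Fin.castLE hmn i) (Fin.castLE hmn j) hij
    change ((g : GL (Fin n) F) : Matrix (Fin n) (Fin n) F) (Fin.castLE hmn i) (Fin.castLE hmn j)
      = _
    rw [this, Matrix.one_apply, Matrix.one_apply]
    simp only [(Fin.castLE_injective hmn).eq_iff]
  · rintro _ ⟨g, rfl⟩
    obtain ⟨a, ha, b, hb, e⟩ := hAB _ g.2
    refine ⟨π ⟨a, hA ha⟩, ⟨_, ha, rfl⟩, π ⟨b, hB hb⟩, ⟨_, hb, rfl⟩, ?_⟩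
    rw [← map_mul]
    exact congrArg π (Subtype.ext e)
  · have e : ((fun g : GL (Fin n) F => (g : Matrix (Fin n) (Fin n) F).submatrix
          (Fin.castLE hmn) (Fin.castLE hmn)) '' G)
        = Units.val '' (π.range : Set (GL (Fin m) F)) := by
      ext X
      constructor
      · rintro ⟨g, hg, rfl⟩
        exact ⟨π ⟨g, hg⟩, ⟨_, rfl⟩, rfl⟩
      · rintro ⟨_, ⟨g, rfl⟩, rfl⟩
        exact ⟨g, g.2, rfl⟩
    rw [e, Set.ncard_image_of_injective _ Units.val_injective] at hcard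
    exact hcard

end MP38b55a.UT
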